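import Pool.Agent.T6.H53.AL.Joint2

/-!
The area of the planar self-avoiding polygons: the isoperimetric upper bound.
-/

set_option autoImplicit false

namespace Pool.Agent.T6.H53.AL

open Pool.Agent.TH795.EP Pool.Agent.TH795.EP2 Pool.Agent.TH795.SE2 Pool.Agent.TH262.SawL
  Pool.Agent.Y981.L2 H981 Finset Filter Topology Pool.Agent.T6.H53.WL

/-- loops of large width and large height -/
def WH (n : ℕ) (A B : ℤ) : Set (ZMod (2 * n) → ℤ × ℤ) :=
  {f | IsLoop (2 * n) f ∧ (∃ i j, A ≤ (f i).1 - (f j).1) ∧ ∃ i j, B ≤ (f i).2 - (f j).2}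

theorem wh_finite {n : ℕ} (hn : 1 ≤ n) (A B : ℤ) : (WH n A B).Finite :=
  (loops_finite hn).subset (fun _ hf => hf.1)

/-- width plus height is at most half the perimeter -/
theorem wh_le {n : ℕ} (hn : 1 ≤ n) {A B : ℤ} (hA : 1 ≤ A) (h : (WH n A B).Nonempty) :
    A + B ≤ n := by
  obtain ⟨f, hf, hw, hh⟩ := h
  obtain ⟨j, p, q, r, u1, u2, u3, u4, hpq, hqr, hrM, ⟨s1, l1⟩, ⟨s2, l2⟩, ⟨s3, l3⟩, ⟨s4, l4⟩,
    hx, hy, -⟩ := loop_four (by omega) hf hA hw hh
  have g1 := abs_add_abs_le u1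
  have g2 := abs_add_abs_le u2
  have g3 := abs_add_abs_le u3
  have g4 := abs_add_abs_le u4
  omega

/-- a polygon of large area has a large width and a large height -/
theorem area_cover {n : ℕ} (hn : 1 ≤ n) {m : ℝ} (hm : 0 < m) :
    {f : ZMod (2 * n) → ℤ × ℤ | IsLoop (2 * n) f ∧ m ^ 2 ≤ area (2 * n) f} ⊆
      ⋃ p ∈ ((Icc 1 (2 * n)) ×ˢ (Icc 1 (2 * n))).filter
        (fun p : ℕ × ℕ => m ^ 2 ≤ (p.1 : ℝ) * p.2), WH n p.1 p.2 := by
  rintro f ⟨hf, ha⟩
  have h1 := area_le_wh hn hf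
  have h2 : m ^ 2 ≤ ((width (2 * n) f : ℕ) : ℝ) * ((width (2 * n) (swp f) : ℕ) : ℝ) := by
    refine ha.trans ?_
    exact_mod_cast h1
  have hpos : (0 : ℝ) < ((width (2 * n) f : ℕ) : ℝ) * ((width (2 * n) (swp f) : ℕ) : ℝ) :=
    lt_of_lt_of_le (by positivity) h2
  have hw : 1 ≤ width (2 * n) f := by
    rcases Nat.eq_zero_or_pos (width (2 * n) f) with h0 | h0
    · rw [h0, Nat.cast_zero, zero_mul] at hpos
      exact absurd hpos (lt_irrefl _)
    · exact h0
  have hh : 1 ≤ width (2 * n) (swp f) := by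
    rcases Nat.eq_zero_or_pos (width (2 * n) (swp f)) with h0 | h0
    · rw [h0, Nat.cast_zero, mul_zero] at hpos
      exact absurd hpos (lt_irrefl _)
    · exact h0
  have hs := swp_loop hf
  rw [Set.mem_iUnion₂]
  refine ⟨(width (2 * n) f, width (2 * n) (swp f)), ?_, hf, ?_, ?_⟩
  · rw [Finset.mem_filter, Finset.mem_product, Finset.mem_Icc, Finset.mem_Icc]
    exact ⟨⟨⟨hw, width_le hn hf⟩, ⟨hh, width_le hn hs⟩⟩, h2⟩
  · exact (le_width hn hf hw).1 le_rfl
  · exact (le_width hn hs hh).1 le_rfl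

/-- **the isoperimetric upper bound** -/
theorem area_upper : ∃ K : ℝ, 0 ≤ K ∧ ∀ n : ℕ, 2 ≤ n → ∀ m : ℝ, 0 < m →
    par n (m ^ 2) ≤ Real.exp (-(2 * n * Rate (m / n, m / n)) + K * Real.log n ^ 2) := by
  obtain ⟨K, hK, h⟩ := joint_tail
  refine ⟨K + 12, by positivity, ?_⟩
  intro n hn m hm
  have hn1 : 1 ≤ n := by omega
  have hn0 : (0 : ℝ) < n := by exact_mod_cast (by omega : 0 < n)
  have hln : (0 : ℝ) < ln n := by
    obtain ⟨K3, hK3, h3⟩ := le_ln
    exact lt_of_lt_of_le (by have := mu_pos; positivity) (h3 n hn)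
  set F := ((Icc 1 (2 * n)) ×ˢ (Icc 1 (2 * n))).filter
        (fun p : ℕ × ℕ => m ^ 2 ≤ (p.1 : ℝ) * p.2) with hF
  have hterm : ∀ p ∈ F, ((WH n p.1 p.2).ncard : ℝ) ≤
      ln n * Real.exp (-(2 * n * Rate (m / n, m / n)) + K * Real.log n ^ 2) := by
    intro p hp
    rw [hF, Finset.mem_filter, Finset.mem_product, Finset.mem_Icc, Finset.mem_Icc] at hp
    obtain ⟨⟨⟨p1, p2⟩, ⟨p3, p4⟩⟩, p5⟩ := hp
    rcases Set.eq_empty_or_nonempty (WH n p.1 p.2) with he | he
    · rw [he, Set.ncard_empty, Nat.cast_zero]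
      positivity
    · have hle := wh_le hn1 (by exact_mod_cast p1) he
      have g := h n hn p.1 p.2 (by exact_mod_cast p1) (by positivity)
      rw [div_le_iff₀ hln] at g
      refine le_trans g ?_
      rw [mul_comm]
      apply mul_le_mul_of_nonneg_left _ hln.le
      apply Real.exp_le_exp.2
      have hs : (0 : ℝ) ≤ ((p.1 : ℤ) : ℝ) / n := by positivity
      have ht : (0 : ℝ) ≤ ((p.2 : ℤ) : ℝ) / n := by positivity
      have hst : ((p.1 : ℤ) : ℝ) / n + ((p.2 : ℤ) : ℝ) / n ≤ 1 := by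
        rw [← add_div, div_le_one hn0]
        exact_mod_cast hle
      have hd := rate_diag (m := m / n) (by positivity) hs ht hst (by
        rw [div_pow, div_mul_div_comm, ← pow_two]
        apply div_le_div_of_nonneg_right _ (by positivity)
        push_cast
        exact p5)
      nlinarith
  have hcard : ((F.card : ℕ) : ℝ) ≤ Real.exp (12 * Real.log n ^ 2) := by
    have h1 : F.card ≤ n ^ 4 := by
      refine (Finset.card_filter_le _ _).trans ?_
      rw [Finset.card_product, Nat.card_Icc, Nat.add_sub_cancel]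
      have : 2 * n ≤ n ^ 2 := by nlinarith
      calc 2 * n * (2 * n) ≤ n ^ 2 * n ^ 2 := Nat.mul_le_mul this this
        _ = n ^ 4 := by ring
    have h2 : ((F.card : ℕ) : ℝ) ≤ (n : ℝ) ^ 4 := by exact_mod_cast h1
    have h3 := pow_le_q hn 4
    norm_num at h3
    exact h2.trans h3
  have hun : (({f : ZMod (2 * n) → ℤ × ℤ | IsLoop (2 * n) f ∧
      m ^ 2 ≤ area (2 * n) f}.ncard : ℕ) : ℝ) ≤ ∑ p ∈ F, ((WH n p.1 p.2).ncard : ℝ) := by
    have h1 : {f : ZMod (2 * n) → ℤ × ℤ | IsLoop (2 * n) f ∧ m ^ 2 ≤ area (2 * n) f}.ncard ≤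
        (⋃ p ∈ F, WH n p.1 p.2).ncard := by
      exact Set.ncard_le_ncard (area_cover hn1 hm)
        (Set.Finite.biUnion (Finset.finite_toSet F) (fun p _ => wh_finite hn1 _ _))
    have h2 : (⋃ p ∈ F, WH n p.1 p.2).ncard ≤ ∑ p ∈ F, (WH n p.1 p.2).ncard :=
      Finset.set_ncard_biUnion_le F (fun p => WH n p.1 p.2)
    exact_mod_cast h1.trans h2
  unfold par
  have e : ({f : ZMod (2 * n) → ℤ × ℤ | IsLoop (2 * n) f}.ncard : ℝ) = ln n := rfl
  rw [e, div_le_iff₀ hln]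
  refine hun.trans ((Finset.sum_le_card_nsmul _ _ _ hterm).trans ?_)
  rw [nsmul_eq_mul]
  calc (F.card : ℝ) * (ln n * Real.exp (-(2 * n * Rate (m / n, m / n)) + K * Real.log n ^ 2))
      ≤ Real.exp (12 * Real.log n ^ 2) *
        (ln n * Real.exp (-(2 * n * Rate (m / n, m / n)) + K * Real.log n ^ 2)) :=
        mul_le_mul_of_nonneg_right hcard (by positivity)
    _ = (Real.exp (12 * Real.log n ^ 2) *
        Real.exp (-(2 * n * Rate (m / n, m / n)) + K * Real.log n ^ 2)) * ln n := by ring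
    _ = _ := by
      rw [← Real.exp_add]
      congr 2
      ring

/-- the exponential rate of `Prob(area ≥ u n²)` -/
theorem area_rate {u : ℝ} (hu : 0 < u) (hu1 : u < 1 / 4) {ε : ℝ} (hε : 0 < ε) :
    ∀ᶠ n : ℕ in atTop,
      -(2 * R (2 * √u)) - ε ≤ Real.log (par n (u * (n : ℝ) ^ 2)) / n ∧
      Real.log (par n (u * (n : ℝ) ^ 2)) / n ≤ -(2 * Rate (√u, √u)) + ε := by
  obtain ⟨K, hK, h⟩ := area_upper
  have hs0 : 0 < √u := Real.sqrt_pos.2 hu
  have hlog : ∀ᶠ n : ℕ in atTop, K * (Real.log (n : ℝ) ^ 2 / n) < ε := by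
    have h1 := log_sq_div.const_mul K
    rw [mul_zero] at h1
    exact h1.eventually (gt_mem_nhds hε)
  filter_upwards [par_ldp hu hu1 hε, hlog, eventually_ge_atTop 2] with n h1 h2 h3
  have hn0 : (0 : ℝ) < n := by exact_mod_cast (by omega : 0 < n)
  have hp : 0 < par n (u * (n : ℝ) ^ 2) := (Real.exp_pos _).trans_le h1.1
  constructor
  · rw [le_div_iff₀ hn0, ← Real.log_exp ((-(2 * R (2 * √u)) - ε) * n)]
    apply Real.log_le_log (Real.exp_pos _)
    refine le_trans (le_of_eq ?_) h1.1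
    congr 1
    ring
  · have h4 := h n h3 (√u * n) (by positivity)
    rw [mul_pow, Real.sq_sqrt hu.le, mul_div_assoc, div_self hn0.ne', mul_one] at h4
    rw [div_le_iff₀ hn0]
    refine (Real.log_le_log hp h4).trans ?_
    rw [Real.log_exp]
    have h5 : K * Real.log n ^ 2 < ε * n := by
      have := mul_lt_mul_of_pos_right h2 hn0
      rwa [mul_assoc, div_mul_cancel₀ _ hn0.ne'] at this
    nlinarith

end Pool.Agent.T6.H53.AL
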