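import Pool.Agent.T6.H53.AL.Joint

/-!
The joint law of the width and the height of the planar self-avoiding polygons: upper bound.
-/

set_option autoImplicit false

namespace Pool.Agent.T6.H53.AL

open Pool.Agent.TH795.EP Pool.Agent.TH795.EP2 Pool.Agent.TH795.SE2 Pool.Agent.TH262.SawL
  Pool.Agent.Y981.L2 H981 Finset Filter Topology Pool.Agent.T6.H53.WL

/-- the index set: starting point, the three other cuts, the four displacements -/
abbrev Ind : Type := ℕ × (ℕ × ℕ × ℕ) × ((ℤ × ℤ) × (ℤ × ℤ) × (ℤ × ℤ) × (ℤ × ℤ))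

/-- the conditions on the index -/
def Cd (M : ℕ) (a b : ℤ) (t : Ind) : Prop :=
  t.2.1.1 ≤ t.2.1.2.1 ∧ t.2.1.2.1 ≤ t.2.1.2.2 ∧ t.2.1.2.2 ≤ M ∧
  2 * a ≤ |t.2.2.1.1| + |t.2.2.2.1.1| + |t.2.2.2.2.1.1| + |t.2.2.2.2.2.1| ∧
  2 * b ≤ |t.2.2.1.2| + |t.2.2.2.1.2| + |t.2.2.2.2.1.2| + |t.2.2.2.2.2.2|

/-- the finite set of the indices -/
noncomputable def IxF (M : ℕ) : Finset Ind :=
  range M ×ˢ (range (M + 1) ×ˢ range (M + 1) ×ˢ range (M + 1)) ×ˢ
    (Bx M ×ˢ Bx M ×ˢ Bx M ×ˢ Bx M)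

open Classical in
noncomputable def Ix4 (M : ℕ) (a b : ℤ) : Finset Ind := (IxF M).filter (Cd M a b)

theorem mem_Ix4 {M : ℕ} {a b : ℤ} {t : Ind} : t ∈ Ix4 M a b ↔ t ∈ IxF M ∧ Cd M a b t := by
  classical
  unfold Ix4
  rw [Finset.mem_filter]

noncomputable def term (M : ℕ) (t : Ind) : ℕ :=
  a t.2.1.1 t.2.2.1.1 t.2.2.1.2 * (a (t.2.1.2.1 - t.2.1.1) t.2.2.2.1.1 t.2.2.2.1.2 *
    (a (t.2.1.2.2 - t.2.1.2.1) t.2.2.2.2.1.1 t.2.2.2.2.1.2 *
      a (M - t.2.1.2.2) t.2.2.2.2.2.1 t.2.2.2.2.2.2))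

theorem mem_Bx' {M : ℕ} {w : List St} (hw : w.length ≤ M) : (dx w, dy w) ∈ Bx M := by
  have h1 := abs_add_abs_le w
  have h4 : (w.length : ℤ) ≤ M := by exact_mod_cast hw
  have h2 := abs_le.1 (le_trans (le_add_of_nonneg_right (abs_nonneg (dy w))) (h1.trans h4))
  have h3 := abs_le.1 (le_trans (le_add_of_nonneg_left (abs_nonneg (dx w))) (h1.trans h4))
  unfold Bx
  rw [Finset.mem_product, Finset.mem_Icc, Finset.mem_Icc]
  exact ⟨h2, h3⟩

theorem joint_upper {M : ℕ} (hM : 2 ≤ M) {a b : ℤ} (ha : 1 ≤ a) :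
    {f : ZMod M → ℤ × ℤ | IsLoop M f ∧ (∃ i j, a ≤ (f i).1 - (f j).1) ∧
      ∃ i j, b ≤ (f i).2 - (f j).2}.ncard ≤ ∑ t ∈ Ix4 M a b, term M t := by
  classical
  have : NeZero M := ⟨by omega⟩
  let S : Ind → Finset (List St × (List St × (List St × List St))) := fun t =>
    fs (fun w => Saw w ∧ dx w = t.2.2.1.1 ∧ dy w = t.2.2.1.2) t.2.1.1 ×ˢ
    (fs (fun w => Saw w ∧ dx w = t.2.2.2.1.1 ∧ dy w = t.2.2.2.1.2) (t.2.1.2.1 - t.2.1.1) ×ˢ
    (fs (fun w => Saw w ∧ dx w = t.2.2.2.2.1.1 ∧ dy w = t.2.2.2.2.1.2)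
      (t.2.1.2.2 - t.2.1.2.1) ×ˢ
    fs (fun w => Saw w ∧ dx w = t.2.2.2.2.2.1 ∧ dy w = t.2.2.2.2.2.2) (M - t.2.1.2.2)))
  have e : ∀ t : Ind, term M t = (S t).card := by
    intro t
    simp only [S]
    rw [Finset.card_product, Finset.card_product, Finset.card_product]
    rfl
  simp only [e]
  rw [← Finset.card_sigma]
  refine le_trans ?_ (Finset.card_image_le (f := fun q =>
    dec4 M ((q.1.1 : ℕ) : ZMod M) (((q.2.1 ++ q.2.2.1) ++ q.2.2.2.1) ++ q.2.2.2.2)))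
  rw [← Set.ncard_coe_finset]
  apply Set.ncard_le_ncard _ (Finset.finite_toSet _)
  rintro f ⟨hf, hw, hh⟩
  obtain ⟨j, p, q, r, u1, u2, u3, u4, hpq, hqr, hrM, ⟨s1, l1⟩, ⟨s2, l2⟩, ⟨s3, l3⟩, ⟨s4, l4⟩,
    hx, hy, hdec⟩ := loop_four hM hf ha hw hh
  rw [Finset.mem_coe, Finset.mem_image]
  refine ⟨⟨(j.val, (p, q, r), ((dx u1, dy u1), (dx u2, dy u2), (dx u3, dy u3),
    (dx u4, dy u4))), (u1, u2, u3, u4)⟩, ?_, ?_⟩
  · rw [Finset.mem_sigma]
    refine ⟨?_, ?_⟩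
    · rw [mem_Ix4]
      refine ⟨?_, hpq, hqr, hrM, hx, hy⟩
      unfold IxF
      simp only [Finset.mem_product, Finset.mem_range]
      refine ⟨ZMod.val_lt _, ⟨by omega, by omega, by omega⟩, mem_Bx' (by omega),
        mem_Bx' (by omega), mem_Bx' (by omega), mem_Bx' (by omega)⟩
    · simp only [S, Finset.mem_product, mem_fs]
      exact ⟨⟨⟨s1, trivial, trivial⟩, l1⟩, ⟨⟨s2, trivial, trivial⟩, l2⟩,
        ⟨⟨s3, trivial, trivial⟩, l3⟩, ⟨s4, trivial, trivial⟩, l4⟩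
  · simp only
    rw [ZMod.natCast_zmod_val]
    exact hdec

/-- the size of the index set -/
theorem card_Ix4 {M : ℕ} (hM : 2 ≤ M) (a b : ℤ) : ((Ix4 M a b).card : ℝ) ≤ q M 108 := by
  classical
  have h1 : (Ix4 M a b).card ≤ (IxF M).card :=
    Finset.card_le_card (fun t ht => (mem_Ix4.1 ht).1)
  have h2 : (IxF M).card ≤ M ^ 36 := by
    unfold IxF Bx
    simp only [Finset.card_product, Finset.card_range, Int.card_Icc]
    have e1 : ((M : ℤ) + 1 - -(M : ℤ)).toNat = 2 * M + 1 := by omega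
    rw [e1]
    have e2 : 2 * M + 1 ≤ M ^ 3 := by
      have : 4 * M ≤ M ^ 3 := by nlinarith [mul_le_mul hM hM (by norm_num) (by omega)]
      omega
    have e3 : M + 1 ≤ M ^ 3 := by omega
    have e4 : M ≤ M ^ 3 := by omega
    calc M * ((M + 1) * ((M + 1) * (M + 1)) * ((2 * M + 1) * (2 * M + 1) *
          ((2 * M + 1) * (2 * M + 1) * ((2 * M + 1) * (2 * M + 1) *
            ((2 * M + 1) * (2 * M + 1))))))
        ≤ M ^ 3 * (M ^ 3 * (M ^ 3 * M ^ 3) * (M ^ 3 * M ^ 3 *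
          (M ^ 3 * M ^ 3 * (M ^ 3 * M ^ 3 * (M ^ 3 * M ^ 3))))) := by gcongr
      _ = M ^ 36 := by ring
  have h3 : ((Ix4 M a b).card : ℝ) ≤ (M : ℝ) ^ 36 := by exact_mod_cast h1.trans h2
  have h4 := pow_le_q hM 36
  norm_num at h4
  exact h3.trans h4

theorem one_le_q' {n : ℕ} (hn : 2 ≤ n) {K : ℝ} (hK : 0 ≤ K) : 1 ≤ q n K :=
  Pool.Agent.Y981.L2.one_le_q hn hK

theorem a_zero {m : ℕ} (hm : 1 ≤ m) : a m 0 0 = 0 := by
  unfold a
  rw [Finset.card_eq_zero, Finset.eq_empty_iff_forall_notMem]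
  intro w hw
  rw [mem_fs] at hw
  obtain ⟨⟨h1, h2, h3⟩, h4⟩ := hw
  have h5 := saw_iff'.1 h1 0 w.length (by omega) le_rfl
  apply h5
  rw [path_len, h2, h3]
  simp [path]

theorem a_zero_zero : a 0 0 0 ≤ 1 := a_le_one (by omega) 0 0

theorem glue0 : ∃ K : ℝ, 0 ≤ K ∧ ∀ n : ℕ, 2 ≤ n → ∀ m1 m2 : ℕ, m1 + m2 ≤ n →
    ∀ x1 y1 x2 y2 : ℤ, 0 ≤ x1 → 0 ≤ y1 → 0 ≤ x2 → 0 ≤ y2 →
    (a m1 x1 y1 : ℝ) * a m2 x2 y2 ≤ q n K * a (m1 + m2) (x1 + x2) (y1 + y2) := by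
  obtain ⟨K, hK, h⟩ := a_glue
  refine ⟨K, hK, ?_⟩
  intro n hn m1 m2 hm x1 y1 x2 y2 g1 g2 g3 g4
  by_cases h0 : (x1 + x2, y1 + y2) = (0, 0)
  · obtain ⟨e1, e2⟩ := Prod.mk.inj h0
    have f1 : x1 = 0 := by omega
    have f2 : x2 = 0 := by omega
    have f3 : y1 = 0 := by omega
    have f4 : y2 = 0 := by omega
    subst f1 f2 f3 f4
    have hq := q_pos n K
    rcases Nat.eq_zero_or_pos m1 with h1 | h1
    · rcases Nat.eq_zero_or_pos m2 with h2 | h2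
      · subst h1 h2
        have h3 : (a 0 0 0 : ℝ) ≤ 1 := by exact_mod_cast a_zero_zero
        have h4 := one_le_q' hn hK
        have h5 : (0 : ℝ) ≤ a 0 0 0 := Nat.cast_nonneg _
        simp only [add_zero]
        nlinarith
      · rw [a_zero h2, Nat.cast_zero, mul_zero]
        positivity
    · rw [a_zero h1, Nat.cast_zero, zero_mul]
      positivity
  · exact h n hn m1 m2 hm x1 y1 x2 y2 h0

/-- the product of four -/
theorem term_le : ∃ K : ℝ, 0 ≤ K ∧ ∀ M : ℕ, 2 ≤ M → ∀ (A B : ℤ) (t : Ind), Cd M A B t →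
    ∃ X Y : ℤ, 2 * A ≤ X ∧ 2 * B ≤ Y ∧ 0 ≤ X ∧ 0 ≤ Y ∧ (term M t : ℝ) ≤ q M K * a M X Y := by
  obtain ⟨K, hK, h⟩ := glue0
  refine ⟨K + K + K, by positivity, ?_⟩
  rintro M hM A B ⟨j, ⟨p, q', r⟩, ⟨x1, y1⟩, ⟨x2, y2⟩, ⟨x3, y3⟩, ⟨x4, y4⟩⟩ ⟨h1, h2, h3, h4, h5⟩
  simp only at h1 h2 h3 h4 h5
  refine ⟨|x1| + (|x2| + (|x3| + |x4|)), |y1| + (|y2| + (|y3| + |y4|)), by omega, by omega,
    by positivity, by positivity, ?_⟩
  unfold term
  simp only
  rw [← a_abs p, ← a_abs (q' - p), ← a_abs (r - q'), ← a_abs (M - r)]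
  push_cast
  have hq := q_pos M K
  have g1 := h M hM (r - q') (M - r) (by omega) |x3| |y3| |x4| |y4| (abs_nonneg _)
    (abs_nonneg _) (abs_nonneg _) (abs_nonneg _)
  have g2 := h M hM (q' - p) (r - q' + (M - r)) (by omega) |x2| |y2| (|x3| + |x4|)
    (|y3| + |y4|) (abs_nonneg _) (abs_nonneg _) (by positivity) (by positivity)
  have g3 := h M hM p (q' - p + (r - q' + (M - r))) (by omega) |x1| |y1|
    (|x2| + (|x3| + |x4|)) (|y2| + (|y3| + |y4|)) (abs_nonneg _) (abs_nonneg _)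
    (by positivity) (by positivity)
  rw [show p + (q' - p + (r - q' + (M - r))) = M by omega] at g3
  have n1 : (0 : ℝ) ≤ a p |x1| |y1| := Nat.cast_nonneg _
  have n2 : (0 : ℝ) ≤ a (q' - p) |x2| |y2| := Nat.cast_nonneg _
  calc (a p |x1| |y1| : ℝ) * (a (q' - p) |x2| |y2| * (a (r - q') |x3| |y3| *
          a (M - r) |x4| |y4|))
      ≤ a p |x1| |y1| * (a (q' - p) |x2| |y2| * (q M K *
          a (r - q' + (M - r)) (|x3| + |x4|) (|y3| + |y4|))) := by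
        apply mul_le_mul_of_nonneg_left _ n1
        exact mul_le_mul_of_nonneg_left g1 n2
    _ = q M K * (a p |x1| |y1| * (a (q' - p) |x2| |y2| *
          a (r - q' + (M - r)) (|x3| + |x4|) (|y3| + |y4|))) := by ring
    _ ≤ q M K * (a p |x1| |y1| * (q M K * a (q' - p + (r - q' + (M - r)))
          (|x2| + (|x3| + |x4|)) (|y2| + (|y3| + |y4|)))) := by
        apply mul_le_mul_of_nonneg_left _ hq.le
        exact mul_le_mul_of_nonneg_left g2 n1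
    _ = q M K * q M K * (a p |x1| |y1| * a (q' - p + (r - q' + (M - r)))
          (|x2| + (|x3| + |x4|)) (|y2| + (|y3| + |y4|))) := by ring
    _ ≤ q M K * q M K * (q M K * a M (|x1| + (|x2| + (|x3| + |x4|)))
          (|y1| + (|y2| + (|y3| + |y4|)))) := by
        apply mul_le_mul_of_nonneg_left g3 (by positivity)
    _ = (q M K * q M K * q M K) * a M (|x1| + (|x2| + (|x3| + |x4|)))
          (|y1| + (|y2| + (|y3| + |y4|))) := by ring
    _ = _ := by rw [q_mul, q_mul]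

/-- the number of words with a far end point -/
theorem a_rate : ∃ K : ℝ, 0 ≤ K ∧ ∀ M : ℕ, 2 ≤ M → ∀ A B : ℤ, 1 ≤ A → 0 ≤ B → ∀ X Y : ℤ,
    A ≤ X → B ≤ Y → (a M X Y : ℝ) ≤
      mu ^ M * q M K * Real.exp (-(M * Rate ((A : ℝ) / M, (B : ℝ) / M))) := by
  obtain ⟨K1, hK1, h1⟩ := ldp_words
  obtain ⟨K2, hK2, hup, -⟩ := exists_K
  refine ⟨K1 + K2, by positivity, ?_⟩
  intro M hM A B hA hB X Y hX hY
  have hM0 : (0 : ℝ) < M := by exact_mod_cast (by omega : 0 < M)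
  have hmu := mu_pos
  rcases Nat.eq_zero_or_pos (a M X Y) with h0 | h0
  · rw [h0, Nat.cast_zero]
    have := q_pos M (K1 + K2)
    positivity
  · obtain ⟨w, hw⟩ := Finset.card_pos.1 h0
    rw [mem_fs] at hw
    obtain ⟨⟨-, hwx, hwy⟩, hwl⟩ := hw
    have h2 := abs_add_abs_le w
    have h3 := parity w
    rw [hwx, hwy, hwl] at h2 h3
    have h4 := h1 M hM X Y (by intro h; have := (Prod.mk.inj h).1; omega) h3 h2
    have h5 := (abs_le.1 h4).2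
    have h6 : (0 : ℝ) < a M X Y := by exact_mod_cast h0
    have h7 := c_pos M
    have h8 : Real.log ((a M X Y : ℝ) / c M) ≤
        -(M * Rate ((X : ℝ) / M, (Y : ℝ) / M)) + K1 * Real.log M ^ 2 := by linarith
    rw [Real.log_le_iff_le_exp (div_pos h6 h7), div_le_iff₀ h7] at h8
    have hv : ((X : ℝ) / M, (Y : ℝ) / M) ∈ Dia := by
      show |(X : ℝ) / M| + |(Y : ℝ) / M| ≤ 1
      rw [abs_div, abs_div, abs_of_pos hM0, ← add_div, div_le_one hM0]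
      have : ((|X| + |Y| : ℤ) : ℝ) ≤ (M : ℤ) := by exact_mod_cast h2
      push_cast at this
      exact this
    have hA0 : (0 : ℝ) ≤ A := by exact_mod_cast (by omega : (0 : ℤ) ≤ A)
    have hB0 : (0 : ℝ) ≤ B := by exact_mod_cast hB
    have h9 : Rate ((A : ℝ) / M, (B : ℝ) / M) ≤ Rate ((X : ℝ) / M, (Y : ℝ) / M) := by
      apply rate_mono hv
      · positivity
      · positivity
      · exact div_le_div_of_nonneg_right (by exact_mod_cast hX) hM0.le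
      · exact div_le_div_of_nonneg_right (by exact_mod_cast hY) hM0.le
    refine h8.trans ?_
    have h10 := hup M hM M le_rfl
    have h11 : Real.exp (-(M * Rate ((X : ℝ) / M, (Y : ℝ) / M)) + K1 * Real.log M ^ 2) ≤
        Real.exp (-(M * Rate ((A : ℝ) / M, (B : ℝ) / M))) * q M K1 := by
      unfold q
      rw [← Real.exp_add]
      apply Real.exp_le_exp.2
      have := mul_le_mul_of_nonneg_left h9 hM0.le
      linarith
    calc _ ≤ (Real.exp (-(M * Rate ((A : ℝ) / M, (B : ℝ) / M))) * q M K1) *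
          (mu ^ M * q M K2) := mul_le_mul h11 h10 h7.le (by have := q_pos M K1; positivity)
      _ = mu ^ M * (q M K1 * q M K2) *
          Real.exp (-(M * Rate ((A : ℝ) / M, (B : ℝ) / M))) := by ring
      _ = _ := by rw [q_mul]

/-- the number of the loops -/
theorem le_ln : ∃ K : ℝ, 0 ≤ K ∧ ∀ n : ℕ, 2 ≤ n →
    mu ^ (2 * n) * Real.exp (-(K * Real.log n ^ 2)) ≤ ln n := by
  obtain ⟨K, hK, h⟩ := Pool.Agent.TH508.LT.sq_PP2
  refine ⟨K, hK, ?_⟩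
  intro n hn
  obtain ⟨g1, -⟩ := h n hn
  rw [ln_eq (by omega)]
  have hn2 : (2 : ℝ) ≤ n := by exact_mod_cast hn
  have hmu := mu_pos
  have h0 : 0 < PP n := lt_of_lt_of_le (by positivity) g1
  nlinarith

/-- **the joint tail of the width and of the height**, upper bound -/
theorem joint_tail : ∃ K : ℝ, 0 ≤ K ∧ ∀ n : ℕ, 2 ≤ n → ∀ A B : ℤ, 1 ≤ A → 0 ≤ B →
    ({f : ZMod (2 * n) → ℤ × ℤ | IsLoop (2 * n) f ∧ (∃ i j, A ≤ (f i).1 - (f j).1) ∧
      ∃ i j, B ≤ (f i).2 - (f j).2}.ncard : ℝ) / ln n ≤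
      Real.exp (-(2 * n * Rate ((A : ℝ) / n, (B : ℝ) / n)) + K * Real.log n ^ 2) := by
  obtain ⟨K1, hK1, h1⟩ := term_le
  obtain ⟨K2, hK2, h2⟩ := a_rate
  obtain ⟨K3, hK3, h3⟩ := le_ln
  refine ⟨4 * (K1 + K2 + 108) + K3, by positivity, ?_⟩
  intro n hn A B hA hB
  have hn0 : (0 : ℝ) < n := by exact_mod_cast (by omega : 0 < n)
  have hmu := mu_pos
  have hM : 2 ≤ 2 * n := by omega
  have hln := h3 n hn
  have hln0 : (0 : ℝ) < ln n := lt_of_lt_of_le (by positivity) hln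
  have hj := joint_upper hM (b := B) hA
  have hsum : ((∑ t ∈ Ix4 (2 * n) A B, term (2 * n) t : ℕ) : ℝ) ≤
      q (2 * n) 108 * (q (2 * n) K1 * (mu ^ (2 * n) * q (2 * n) K2 *
        Real.exp (-((2 * n : ℕ) * Rate (((2 * A : ℤ) : ℝ) / (2 * n : ℕ),
          ((2 * B : ℤ) : ℝ) / (2 * n : ℕ)))))) := by
    rw [Nat.cast_sum]
    refine le_trans (Finset.sum_le_card_nsmul _ _ (q (2 * n) K1 * (mu ^ (2 * n) *
      q (2 * n) K2 * Real.exp (-((2 * n : ℕ) * Rate (((2 * A : ℤ) : ℝ) / (2 * n : ℕ),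
          ((2 * B : ℤ) : ℝ) / (2 * n : ℕ)))))) ?_) ?_
    · intro t ht
      rw [mem_Ix4] at ht
      obtain ⟨X, Y, g1, g2, g3, g4, g5⟩ := h1 (2 * n) hM A B t ht.2
      refine g5.trans (mul_le_mul_of_nonneg_left ?_ (q_pos _ _).le)
      exact h2 (2 * n) hM (2 * A) (2 * B) (by omega) (by omega) X Y g1 g2
    · rw [nsmul_eq_mul]
      apply mul_le_mul_of_nonneg_right (card_Ix4 hM A B)
      have := q_pos (2 * n) K1
      have := q_pos (2 * n) K2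
      positivity
  have e1 : ((2 * A : ℤ) : ℝ) / (2 * n : ℕ) = A / n := by
    push_cast
    rw [mul_div_mul_left _ _ two_ne_zero]
  have e2 : ((2 * B : ℤ) : ℝ) / (2 * n : ℕ) = B / n := by
    push_cast
    rw [mul_div_mul_left _ _ two_ne_zero]
  rw [e1, e2] at hsum
  have hj' : ({f : ZMod (2 * n) → ℤ × ℤ | IsLoop (2 * n) f ∧
      (∃ i j, A ≤ (f i).1 - (f j).1) ∧ ∃ i j, B ≤ (f i).2 - (f j).2}.ncard : ℝ) ≤
      ((∑ t ∈ Ix4 (2 * n) A B, term (2 * n) t : ℕ) : ℝ) := by exact_mod_cast hj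
  rw [div_le_iff₀ hln0]
  refine (hj'.trans hsum).trans ?_
  refine le_trans ?_ (mul_le_mul_of_nonneg_left hln (Real.exp_pos _).le)
  have hq : ∀ K : ℝ, 0 ≤ K → q (2 * n) K ≤ Real.exp (4 * K * Real.log n ^ 2) := by
    intro K hK
    unfold q
    apply Real.exp_le_exp.2
    have hl := log_two_mul hn
    have hl0 : 0 ≤ Real.log ((2 * n : ℕ) : ℝ) := (log_pos' hM).le
    have : Real.log ((2 * n : ℕ) : ℝ) ^ 2 ≤ (2 * Real.log n) ^ 2 := pow_le_pow_left₀ hl0 hl 2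
    nlinarith [mul_le_mul_of_nonneg_left this hK]
  have hqq : q (2 * n) 108 * (q (2 * n) K1 * q (2 * n) K2) ≤
      Real.exp (4 * (K1 + K2 + 108) * Real.log n ^ 2) := by
    rw [q_mul, q_mul]
    refine (hq _ (by positivity)).trans (le_of_eq ?_)
    congr 1
    ring
  calc q (2 * n) 108 * (q (2 * n) K1 * (mu ^ (2 * n) * q (2 * n) K2 *
        Real.exp (-((2 * n : ℕ) * Rate ((A : ℝ) / n, (B : ℝ) / n)))))
      = (q (2 * n) 108 * (q (2 * n) K1 * q (2 * n) K2)) * (mu ^ (2 * n) *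
        Real.exp (-((2 * n : ℕ) * Rate ((A : ℝ) / n, (B : ℝ) / n)))) := by ring
    _ ≤ Real.exp (4 * (K1 + K2 + 108) * Real.log n ^ 2) * (mu ^ (2 * n) *
        Real.exp (-((2 * n : ℕ) * Rate ((A : ℝ) / n, (B : ℝ) / n)))) :=
        mul_le_mul_of_nonneg_right hqq (by positivity)
    _ = mu ^ (2 * n) * (Real.exp (4 * (K1 + K2 + 108) * Real.log n ^ 2) *
        Real.exp (-((2 * n : ℕ) * Rate ((A : ℝ) / n, (B : ℝ) / n)))) := by ring
    _ = mu ^ (2 * n) * (Real.exp (-(2 * n * Rate ((A : ℝ) / n, (B : ℝ) / n)) +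
          (4 * (K1 + K2 + 108) + K3) * Real.log n ^ 2) * Real.exp (-(K3 * Real.log n ^ 2))) := by
        rw [← Real.exp_add, ← Real.exp_add]
        congr 2
        push_cast
        ring
    _ = _ := by ring

end Pool.Agent.T6.H53.AL
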