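import Pool.Agent.T6.H53.WL.Tail
import Pool.Agent.Y981.L2.Area5

/-!
The area of the planar self-avoiding polygons: two-sided large deviation bounds.
-/

set_option autoImplicit false

namespace Pool.Agent.T6.H53.AL

open Pool.Agent.TH795.EP Pool.Agent.TH795.EP2 Pool.Agent.TH795.SE2 Pool.Agent.TH262.SawL
  Pool.Agent.Y981.L2 H981 Finset Filter Topology Pool.Agent.T6.H53.WL

theorem Yv_anti {u v : ℝ} (hu : 0 < u) (huv : u ≤ v) (hv : v ≤ 1) : Yv v ≤ Yv u := by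
  unfold Yv
  have h1 : Real.log (1 / v) ≤ Real.log (1 / u) :=
    Real.log_le_log (by have := hu.trans_le huv; positivity)
      (one_div_le_one_div_of_le hu huv)
  have h0 : 0 ≤ Real.log (1 / v) := log_inv_nonneg (hu.trans_le huv) hv
  have h2 : Real.log (1 + Real.log (1 / v)) ≤ Real.log (1 + Real.log (1 / u)) :=
    Real.log_le_log (by linarith) (by linarith)
  have h3 : 0 ≤ Real.log (1 + Real.log (1 / v)) := Real.log_nonneg (by linarith)
  exact mul_le_mul (by linarith) (by linarith) (by linarith) (by linarith)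

/-- the area against the rate function of the width -/
theorem par_rate : ∃ K : ℝ, 0 ≤ K ∧ ∀ n : ℕ, 2 ≤ n → ∀ k : ℕ, 1 ≤ k → 2 * k < n →
    Real.exp (-(2 * n * R (2 * k / n)) - K * Real.log n ^ 2) ≤ par n ((k : ℝ) ^ 2) ∧
    par n ((k : ℝ) ^ 2) ≤ Real.exp (-(2 * n * R (k / n)) + K * Real.log n ^ 2) := by
  obtain ⟨K1, hK1, h1⟩ := area_width
  obtain ⟨K2, hK2, h2⟩ := pw_ldp
  refine ⟨K1 + K2 + 2, by positivity, fun n hn k hk hkn => ?_⟩
  obtain ⟨g1, g2⟩ := h1 n hn k hk hkn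
  obtain ⟨g3, -⟩ := h2 n hn (2 * k) (by omega) hkn
  obtain ⟨-, g4⟩ := h2 n hn k hk (by omega)
  push_cast at g3
  have hL : 0 ≤ Real.log (n : ℝ) ^ 2 := by positivity
  constructor
  · refine le_trans ?_ g1
    refine le_trans ?_ (mul_le_mul_of_nonneg_left g3 (Real.exp_pos _).le)
    rw [← Real.exp_add]
    apply Real.exp_le_exp.2
    nlinarith
  · refine g2.trans ?_
    refine le_trans (mul_le_mul_of_nonneg_left g4 two_pos.le) ?_
    have h3 : (2 : ℝ) ≤ Real.exp (2 * Real.log n ^ 2) := by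
      have hl : Real.log 2 ≤ Real.log (n : ℝ) :=
        Real.log_le_log two_pos (by exact_mod_cast hn)
      have h5 : 0.69 ≤ Real.log 2 := by have := Real.log_two_gt_d9; linarith
      have h6 : Real.log 2 ≤ 2 * Real.log (n : ℝ) ^ 2 := by nlinarith
      calc (2 : ℝ) = Real.exp (Real.log 2) := (Real.exp_log two_pos).symm
        _ ≤ _ := Real.exp_le_exp.2 h6
    refine le_trans (mul_le_mul_of_nonneg_right h3 (Real.exp_pos _).le) ?_
    rw [← Real.exp_add]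
    apply Real.exp_le_exp.2
    nlinarith

/-- explicit two-sided bounds -/
theorem par_bounds : ∃ C : ℝ, 1 ≤ C ∧ ∀ n : ℕ, 2 ≤ n → ∀ k : ℕ, 1 ≤ k → 2 * k < n →
    Real.exp (-(C * ((k : ℝ) ^ 2 / n * (1 + Real.log (n / k)) ^ 2 + Real.log n ^ 2))) ≤
      par n ((k : ℝ) ^ 2) ∧
    par n ((k : ℝ) ^ 2) ≤
      Real.exp (C * Real.log n ^ 2 - 2 * n * Real.exp (-(C * Yv ((k : ℝ) / n)))) := by
  obtain ⟨K1, hK1, h1⟩ := area_width
  obtain ⟨C, hC, h2⟩ := wide_bounds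
  refine ⟨4 * C + K1 + 2, by linarith, fun n hn k hk hkn => ?_⟩
  obtain ⟨g1, g2⟩ := h1 n hn k hk hkn
  obtain ⟨g3, -⟩ := h2 n hn (2 * k) (by omega) hkn
  obtain ⟨-, g4⟩ := h2 n hn k hk (by omega)
  have hn0 : (0 : ℝ) < n := by exact_mod_cast (by omega : 0 < n)
  have hk0 : (0 : ℝ) < k := by exact_mod_cast (by omega : 0 < k)
  have hL : 0 ≤ Real.log (n : ℝ) ^ 2 := by positivity
  push_cast at g3
  constructor
  · refine le_trans ?_ g1
    refine le_trans ?_ (mul_le_mul_of_nonneg_left g3 (Real.exp_pos _).le)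
    rw [← Real.exp_add]
    apply Real.exp_le_exp.2
    have e1 : Real.log ((n : ℝ) / (2 * k)) ≤ Real.log (n / k) := by
      apply Real.log_le_log (by positivity)
      apply div_le_div_of_nonneg_left hn0.le hk0
      linarith
    have e0 : 0 ≤ Real.log ((n : ℝ) / (2 * k)) := by
      apply Real.log_nonneg
      rw [le_div_iff₀ (by positivity), one_mul]
      exact_mod_cast hkn.le
    have e2 : (1 + Real.log ((n : ℝ) / (2 * k))) ^ 2 ≤ (1 + Real.log (n / k)) ^ 2 := by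
      apply pow_le_pow_left₀ (by linarith)
      linarith
    have e3 : (2 * (k : ℝ)) ^ 2 / n * (1 + Real.log ((n : ℝ) / (2 * k))) ^ 2 ≤
        4 * ((k : ℝ) ^ 2 / n * (1 + Real.log (n / k)) ^ 2) := by
      calc (2 * (k : ℝ)) ^ 2 / n * (1 + Real.log ((n : ℝ) / (2 * k))) ^ 2
          ≤ (2 * (k : ℝ)) ^ 2 / n * (1 + Real.log (n / k)) ^ 2 :=
            mul_le_mul_of_nonneg_left e2 (by positivity)
        _ = _ := by ring
    have e4 : 0 ≤ (k : ℝ) ^ 2 / n * (1 + Real.log (n / k)) ^ 2 := by positivity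
    nlinarith
  · refine g2.trans ?_
    refine le_trans (mul_le_mul_of_nonneg_left g4 two_pos.le) ?_
    have h3 : (2 : ℝ) ≤ Real.exp (2 * Real.log n ^ 2) := by
      have hl : Real.log 2 ≤ Real.log (n : ℝ) :=
        Real.log_le_log two_pos (by exact_mod_cast hn)
      have h5 : 0.69 ≤ Real.log 2 := by have := Real.log_two_gt_d9; linarith
      have h6 : Real.log 2 ≤ 2 * Real.log (n : ℝ) ^ 2 := by nlinarith
      calc (2 : ℝ) = Real.exp (Real.log 2) := (Real.exp_log two_pos).symm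
        _ ≤ _ := Real.exp_le_exp.2 h6
    refine le_trans (mul_le_mul_of_nonneg_right h3 (Real.exp_pos _).le) ?_
    rw [← Real.exp_add]
    apply Real.exp_le_exp.2
    have hu : 0 < (k : ℝ) / n := by positivity
    have hu1 : (k : ℝ) / n ≤ 1 := by
      rw [div_le_one hn0]
      exact_mod_cast (by omega : k ≤ n)
    have e1 := one_le_Yv hu hu1
    have e2 : Real.exp (-((4 * C + K1 + 2) * Yv ((k : ℝ) / n))) ≤
        Real.exp (-(C * Yv ((k : ℝ) / n))) := by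
      apply Real.exp_le_exp.2
      nlinarith
    have e3 := mul_le_mul_of_nonneg_left e2 (show 0 ≤ 2 * (n : ℝ) by positivity)
    nlinarith

/-- the exponential rate of `Prob(area ≥ u n²)` -/
theorem par_ldp {u : ℝ} (hu : 0 < u) (hu1 : u < 1 / 4) {ε : ℝ} (hε : 0 < ε) :
    ∀ᶠ n : ℕ in atTop,
      Real.exp (-(2 * R (2 * √u) + ε) * n) ≤ par n (u * (n : ℝ) ^ 2) ∧
      par n (u * (n : ℝ) ^ 2) ≤ Real.exp (-(2 * R (√u) - ε) * n) := by
  obtain ⟨K, hK, h⟩ := par_rate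
  obtain ⟨s, hs⟩ : ∃ s, s = √u := ⟨_, rfl⟩
  have hs0 : 0 < s := by rw [hs]; exact Real.sqrt_pos.2 hu
  have hs2 : s ^ 2 = u := by rw [hs]; exact Real.sq_sqrt hu.le
  have hs1 : 2 * s < 1 := by nlinarith
  rw [← hs]
  have hce : Tendsto (fun n : ℕ => ((⌈s * (n : ℝ)⌉₊ : ℕ) : ℝ) / n) atTop (𝓝 s) :=
    (tendsto_nat_ceil_mul_div_atTop hs0.le).comp tendsto_natCast_atTop_atTop (α := ℕ)
  have hfl : Tendsto (fun n : ℕ => ((⌊s * (n : ℝ)⌋₊ : ℕ) : ℝ) / n) atTop (𝓝 s) :=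
    (tendsto_nat_floor_mul_div_atTop hs0.le).comp tendsto_natCast_atTop_atTop (α := ℕ)
  have hce2 : Tendsto (fun n : ℕ => 2 * ((⌈s * (n : ℝ)⌉₊ : ℕ) : ℝ) / n) atTop (𝓝 (2 * s)) := by
    have := hce.const_mul 2
    refine this.congr (fun n => ?_)
    ring
  have hlt : ∀ᶠ n : ℕ in atTop, 2 * ((⌈s * (n : ℝ)⌉₊ : ℕ) : ℝ) / n < 1 :=
    hce2.eventually (gt_mem_nhds hs1)
  have hR1 : Tendsto (fun n : ℕ => R (2 * ((⌈s * (n : ℝ)⌉₊ : ℕ) : ℝ) / n)) atTop
      (𝓝 (R (2 * s))) := by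
    have h1 := R_cont (2 * s) ⟨by linarith, hs1.le⟩
    refine h1.tendsto.comp (tendsto_nhdsWithin_iff.2 ⟨hce2, ?_⟩)
    filter_upwards [hlt] with n hn
    exact ⟨by positivity, hn.le⟩
  have hR2 : Tendsto (fun n : ℕ => R (((⌊s * (n : ℝ)⌋₊ : ℕ) : ℝ) / n)) atTop (𝓝 (R s)) := by
    have h1 := R_cont s ⟨hs0.le, by linarith⟩
    refine h1.tendsto.comp (tendsto_nhdsWithin_iff.2 ⟨hfl, ?_⟩)
    filter_upwards [hfl.eventually (gt_mem_nhds (show s < 1 by linarith))] with n hn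
    exact ⟨by positivity, hn.le⟩
  have hlog : ∀ᶠ n : ℕ in atTop, K * (Real.log (n : ℝ) ^ 2 / n) < ε / 2 := by
    have h1 := log_sq_div.const_mul K
    rw [mul_zero] at h1
    exact h1.eventually (gt_mem_nhds (by linarith))
  have hA : ∀ᶠ n : ℕ in atTop, R (2 * ((⌈s * (n : ℝ)⌉₊ : ℕ) : ℝ) / n) < R (2 * s) + ε / 4 :=
    hR1.eventually (gt_mem_nhds (by linarith))
  have hB : ∀ᶠ n : ℕ in atTop, R s - ε / 4 < R (((⌊s * (n : ℝ)⌋₊ : ℕ) : ℝ) / n) :=
    hR2.eventually (lt_mem_nhds (by linarith))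
  have hC : ∀ᶠ n : ℕ in atTop, s / 2 < ((⌊s * (n : ℝ)⌋₊ : ℕ) : ℝ) / n :=
    hfl.eventually (lt_mem_nhds (by linarith))
  filter_upwards [hlt, hlog, hA, hB, hC, eventually_ge_atTop 2] with n n1 n2 n3 n4 n5 n6
  have hn0 : (0 : ℝ) < n := by exact_mod_cast (by omega : 0 < n)
  obtain ⟨k, hk⟩ : ∃ k, k = ⌈s * (n : ℝ)⌉₊ := ⟨_, rfl⟩
  obtain ⟨j, hj⟩ : ∃ j, j = ⌊s * (n : ℝ)⌋₊ := ⟨_, rfl⟩
  rw [← hk] at n1 n3
  rw [← hj] at n4 n5
  have hk1 : 1 ≤ k := by rw [hk]; exact Nat.ceil_pos.2 (by positivity)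
  have hkn : 2 * k < n := by
    rw [div_lt_one hn0] at n1
    exact_mod_cast n1
  have hjk : j ≤ k := by rw [hj, hk]; exact Nat.floor_le_ceil _
  have hj1 : 1 ≤ j := by
    rcases Nat.eq_zero_or_pos j with h0 | h0
    · rw [h0, Nat.cast_zero, zero_div] at n5
      linarith
    · exact h0
  have hK2 : K * Real.log n ^ 2 < ε / 2 * n := by
    have := mul_lt_mul_of_pos_right n2 hn0
    rwa [mul_assoc, div_mul_cancel₀ _ hn0.ne'] at this
  constructor
  · obtain ⟨g1, -⟩ := h n n6 k hk1 hkn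
    refine le_trans ?_ (g1.trans (par_anti (by omega) ?_))
    · apply Real.exp_le_exp.2
      nlinarith
    · rw [← hs2, ← mul_pow]
      apply pow_le_pow_left₀ (by positivity)
      rw [hk]
      exact Nat.le_ceil _
  · obtain ⟨-, g1⟩ := h n n6 j hj1 (by omega)
    refine le_trans (par_anti (by omega) ?_) (g1.trans ?_)
    · rw [← hs2, ← mul_pow]
      apply pow_le_pow_left₀ (Nat.cast_nonneg _)
      rw [hj]
      exact Nat.floor_le (by positivity)
    · apply Real.exp_le_exp.2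
      nlinarith

end Pool.Agent.T6.H53.AL
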