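import Pool.Agent.T6.H53.AL.Area

/-!
The joint law of the width and the height of the planar self-avoiding polygons: upper bound.
-/

set_option autoImplicit false

namespace Pool.Agent.T6.H53.AL

open Pool.Agent.TH795.EP Pool.Agent.TH795.EP2 Pool.Agent.TH795.SE2 Pool.Agent.TH262.SawL
  Pool.Agent.Y981.L2 H981 Finset Filter Topology Pool.Agent.T6.H53.WL

/-! ### symmetry and monotonicity of the rate function -/

theorem Lam_abs (h : ℝ × ℝ) : Lam (|h.1|, |h.2|) = Lam h := by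
  rcases abs_choice h.1 with h1 | h1 <;> rcases abs_choice h.2 with h2 | h2 <;> rw [h1, h2]
  · exact Lam_ng h
  · exact Lam_sg h
  · exact (Lam_sg (h.1, -h.2)).trans (Lam_ng h)

theorem Lam_sw (h : ℝ × ℝ) : Lam (h.2, h.1) = Lam h := by
  have h1 := Lam_tendsto (h.2, h.1)
  have h2 := Lam_tendsto h
  simp only [Z_sw] at h1
  have := tendsto_nhds_unique h1 h2
  linarith

theorem rate_mono {u v : ℝ × ℝ} (hv : v ∈ Dia) (h1 : 0 ≤ u.1) (h2 : 0 ≤ u.2) (h3 : u.1 ≤ v.1)
    (h4 : u.2 ≤ v.2) : Rate u ≤ Rate v := by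
  apply ciSup_le
  intro h
  have h5 := le_rate hv (|h.1|, |h.2|)
  rw [Lam_abs] at h5
  simp only at h5
  have h6 : h.1 * u.1 ≤ |h.1| * v.1 :=
    (mul_le_mul_of_nonneg_right (le_abs_self h.1) h1).trans
      (mul_le_mul_of_nonneg_left h3 (abs_nonneg _))
  have h7 : h.2 * u.2 ≤ |h.2| * v.2 :=
    (mul_le_mul_of_nonneg_right (le_abs_self h.2) h2).trans
      (mul_le_mul_of_nonneg_left h4 (abs_nonneg _))
  linarith

theorem dia_swap {v : ℝ × ℝ} (hv : v ∈ Dia) : (v.2, v.1) ∈ Dia := by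
  have h : |v.1| + |v.2| ≤ 1 := hv
  show |v.2| + |v.1| ≤ 1
  linarith

theorem rate_sw {v : ℝ × ℝ} (hv : v ∈ Dia) : Rate (v.2, v.1) = Rate v := by
  apply le_antisymm
  · apply ciSup_le
    intro h
    have h1 := le_rate hv (h.2, h.1)
    rw [Lam_sw] at h1
    simp only at h1 ⊢
    linarith
  · apply ciSup_le
    intro h
    have h1 := le_rate (dia_swap hv) (h.2, h.1)
    rw [Lam_sw] at h1
    simp only at h1 ⊢
    linarith

/-- among the points with given product of the coordinates the diagonal one is the best -/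
theorem rate_diag {s t m : ℝ} (hm : 0 ≤ m) (hs : 0 ≤ s) (ht : 0 ≤ t) (hst : s + t ≤ 1)
    (h : m ^ 2 ≤ s * t) : Rate (m, m) ≤ Rate (s, t) := by
  have hv : (s, t) ∈ Dia := by
    show |s| + |t| ≤ 1
    rw [abs_of_nonneg hs, abs_of_nonneg ht]
    exact hst
  have h1 := convex_rate.2 hv (dia_swap hv) (show (0 : ℝ) ≤ 1 / 2 by norm_num)
    (show (0 : ℝ) ≤ 1 / 2 by norm_num) (by norm_num)
  rw [rate_sw hv] at h1
  have e : (1 / 2 : ℝ) • ((s, t) : ℝ × ℝ) + (1 / 2 : ℝ) • ((s, t).2, (s, t).1) =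
      ((s + t) / 2, (s + t) / 2) := by
    ext <;> simp <;> ring
  rw [e] at h1
  have h2 : m ≤ (s + t) / 2 := by
    have h3 : m ^ 2 ≤ ((s + t) / 2) ^ 2 := by nlinarith [sq_nonneg (s - t)]
    exact (pow_le_pow_iff_left₀ hm (by linarith) two_ne_zero).1 h3
  have h4 : ((s + t) / 2, (s + t) / 2) ∈ Dia := by
    show |(s + t) / 2| + |(s + t) / 2| ≤ 1
    rw [abs_of_nonneg (by linarith)]
    linarith
  have h5 := rate_mono (u := (m, m)) h4 hm hm h2 h2
  simp only [smul_eq_mul] at h1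
  linarith

/-! ### arcs of a loop -/

theorem arc {M : ℕ} (hM : 2 ≤ M) {f : ZMod M → ℤ × ℤ} (hf : IsLoop M f) (i : ZMod M) {l : ℕ}
    (hl : l < M) : ∃ u : List St, Saw u ∧ u.length = l ∧ ∀ t : ℕ, t ≤ u.length → path u t =
      ((f (i + (t : ZMod M))).1 - (f i).1, (f (i + (t : ZMod M))).2 - (f i).2) := by
  obtain ⟨w, h1, h2, h3⟩ := loop_word hM hf i
  have h4 : (w.take l).length = l := by rw [List.length_take]; omega
  refine ⟨w.take l, h1.subw (List.take_prefix _ _).isInfix, h4, ?_⟩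
  intro t ht
  rw [h4] at ht
  rw [path_take ht]
  exact h3 t (by omega)

theorem join_arc {M : ℕ} {f : ZMod M → ℤ × ℤ} {i : ZMod M} {u v : List St}
    (hu : ∀ t : ℕ, t ≤ u.length → path u t =
      ((f (i + (t : ZMod M))).1 - (f i).1, (f (i + (t : ZMod M))).2 - (f i).2))
    (hv : ∀ t : ℕ, t ≤ v.length → path v t =
      ((f (i + (u.length : ZMod M) + (t : ZMod M))).1 - (f (i + (u.length : ZMod M))).1,
        (f (i + (u.length : ZMod M) + (t : ZMod M))).2 - (f (i + (u.length : ZMod M))).2)) :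
    ∀ t : ℕ, t ≤ (u ++ v).length → path (u ++ v) t =
      ((f (i + (t : ZMod M))).1 - (f i).1, (f (i + (t : ZMod M))).2 - (f i).2) := by
  intro t ht
  rcases le_or_gt t u.length with h | h
  · rw [path_append_left h]
    exact hu t h
  · obtain ⟨s, rfl⟩ : ∃ s, t = u.length + s := ⟨t - u.length, by omega⟩
    rw [List.length_append] at ht
    rw [path_append_right, hv s (by omega)]
    have h1 := hu u.length le_rfl
    rw [path_len] at h1
    obtain ⟨h2, h3⟩ := Prod.mk.inj h1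
    rw [h2, h3]
    have e : i + ((u.length + s : ℕ) : ZMod M) = i + (u.length : ZMod M) + (s : ZMod M) := by
      push_cast; ring
    rw [e]
    ext <;> simp only <;> ring

/-- decoding of a loop from a closed word -/
def dec4 (M : ℕ) (j : ZMod M) (W : List St) (k : ZMod M) : ℤ × ℤ :=
  path W (k - j).val - path W (0 - j).val

theorem dec_eq {M : ℕ} (hM : 2 ≤ M) {f : ZMod M → ℤ × ℤ} (hf : IsLoop M f) {j : ZMod M}
    {W : List St} (hW : W.length = M) (h : ∀ t : ℕ, t ≤ W.length → path W t =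
      ((f (j + (t : ZMod M))).1 - (f j).1, (f (j + (t : ZMod M))).2 - (f j).2)) :
    dec4 M j W = f := by
  have : NeZero M := ⟨by omega⟩
  have hF : ∀ z : ZMod M, path W (z - j).val = ((f z).1 - (f j).1, (f z).2 - (f j).2) := by
    intro z
    have hz : (((z - j).val : ℕ) : ZMod M) = z - j := by
      rw [ZMod.natCast_val, ZMod.cast_id']; rfl
    have hlt := ZMod.val_lt (z - j)
    rw [h _ (by omega), hz]
    have : j + (z - j) = z := by ring
    rw [this]
  funext z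
  unfold dec4
  rw [hF z, hF 0, hf.1]
  ext <;> simp

/-- a loop of large width and height consists of four arcs whose displacements are large -/
theorem loop_four {M : ℕ} (hM : 2 ≤ M) {f : ZMod M → ℤ × ℤ} (hf : IsLoop M f) {a b : ℤ}
    (ha : 1 ≤ a) (hw : ∃ i j, a ≤ (f i).1 - (f j).1) (hh : ∃ i j, b ≤ (f i).2 - (f j).2) :
    ∃ (j : ZMod M) (p q r : ℕ) (u1 u2 u3 u4 : List St), p ≤ q ∧ q ≤ r ∧ r ≤ M ∧
      (Saw u1 ∧ u1.length = p) ∧ (Saw u2 ∧ u2.length = q - p) ∧ (Saw u3 ∧ u3.length = r - q) ∧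
      (Saw u4 ∧ u4.length = M - r) ∧ 2 * a ≤ |dx u1| + |dx u2| + |dx u3| + |dx u4| ∧
      2 * b ≤ |dy u1| + |dy u2| + |dy u3| + |dy u4| ∧
      dec4 M j (((u1 ++ u2) ++ u3) ++ u4) = f := by
  obtain ⟨i1, j, h1⟩ := hw
  obtain ⟨i2, j2, h2⟩ := hh
  have : NeZero M := ⟨by omega⟩
  have hval : ∀ z : ZMod M, j + (((z - j).val : ℕ) : ZMod M) = z := by
    intro z
    rw [ZMod.natCast_val, ZMod.cast_id']
    simp
  obtain ⟨P1, hP1⟩ : ∃ P, P = (i1 - j).val := ⟨_, rfl⟩
  obtain ⟨P2, hP2⟩ : ∃ P, P = (i2 - j).val := ⟨_, rfl⟩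
  obtain ⟨P3, hP3⟩ : ∃ P, P = (j2 - j).val := ⟨_, rfl⟩
  have b1 : P1 < M := by rw [hP1]; exact ZMod.val_lt _
  have b2 : P2 < M := by rw [hP2]; exact ZMod.val_lt _
  have b3 : P3 < M := by rw [hP3]; exact ZMod.val_lt _
  have v1 : j + (P1 : ZMod M) = i1 := by rw [hP1]; exact hval i1
  have v2 : j + (P2 : ZMod M) = i2 := by rw [hP2]; exact hval i2
  have v3 : j + (P3 : ZMod M) = j2 := by rw [hP3]; exact hval j2
  have b0 : 1 ≤ P1 := by
    rcases Nat.eq_zero_or_pos P1 with h0 | h0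
    · rw [h0, Nat.cast_zero, add_zero] at v1
      rw [v1] at h1
      omega
    · exact h0
  obtain ⟨p, q, r, hpq, hqr, hrM, c1, c2, c3⟩ : ∃ p q r : ℕ, p ≤ q ∧ q ≤ r ∧ r < M ∧
      (P1 = p ∨ P1 = q ∨ P1 = r) ∧ (P2 = p ∨ P2 = q ∨ P2 = r) ∧
      (P3 = p ∨ P3 = q ∨ P3 = r) := by
    refine ⟨min P1 (min P2 P3), P1 + P2 + P3 - min P1 (min P2 P3) - max P1 (max P2 P3),
      max P1 (max P2 P3), by omega, by omega, by omega, by omega, by omega, by omega⟩
  have hr0 : 1 ≤ r := by omega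
  obtain ⟨u1, s1, l1, k1⟩ := arc hM hf j (l := p) (by omega)
  obtain ⟨u2, s2, l2, k2⟩ := arc hM hf (j + (p : ZMod M)) (l := q - p) (by omega)
  obtain ⟨u3, s3, l3, k3⟩ := arc hM hf (j + (q : ZMod M)) (l := r - q) (by omega)
  obtain ⟨u4, s4, l4, k4⟩ := arc hM hf (j + (r : ZMod M)) (l := M - r) (by omega)
  have e2 : j + (p : ZMod M) + ((q - p : ℕ) : ZMod M) = j + (q : ZMod M) := by
    rw [Nat.cast_sub hpq]; ring
  have e3 : j + (q : ZMod M) + ((r - q : ℕ) : ZMod M) = j + (r : ZMod M) := by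
    rw [Nat.cast_sub hqr]; ring
  have e4 : j + (r : ZMod M) + ((M - r : ℕ) : ZMod M) = j := by
    rw [Nat.cast_sub hrM.le, ZMod.natCast_self]; ring
  have d1 := k1 _ le_rfl
  have d2 := k2 _ le_rfl
  have d3 := k3 _ le_rfl
  have d4 := k4 _ le_rfl
  rw [path_len] at d1 d2 d3 d4
  rw [l1] at d1
  rw [l2, e2] at d2
  rw [l3, e3] at d3
  rw [l4, e4] at d4
  obtain ⟨x1, y1⟩ := Prod.mk.inj d1
  obtain ⟨x2, y2⟩ := Prod.mk.inj d2
  obtain ⟨x3, y3⟩ := Prod.mk.inj d3
  obtain ⟨x4, y4⟩ := Prod.mk.inj d4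
  refine ⟨j, p, q, r, u1, u2, u3, u4, hpq, hqr, hrM.le, ⟨s1, l1⟩, ⟨s2, l2⟩, ⟨s3, l3⟩, ⟨s4, l4⟩,
    ?_, ?_, ?_⟩
  · have m1 := le_abs_self (dx u1)
    have m2 := le_abs_self (dx u2)
    have m3 := le_abs_self (dx u3)
    have m4 := le_abs_self (dx u4)
    have n1 := neg_le_abs (dx u1)
    have n2 := neg_le_abs (dx u2)
    have n3 := neg_le_abs (dx u3)
    have n4 := neg_le_abs (dx u4)
    rcases c1 with c | c | c <;> rw [← v1, c] at h1 <;> omega
  · have m1 := le_abs_self (dy u1)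
    have m2 := le_abs_self (dy u2)
    have m3 := le_abs_self (dy u3)
    have m4 := le_abs_self (dy u4)
    have n1 := neg_le_abs (dy u1)
    have n2 := neg_le_abs (dy u2)
    have n3 := neg_le_abs (dy u3)
    have n4 := neg_le_abs (dy u4)
    rcases c2 with c | c | c <;> rcases c3 with c' | c' | c' <;>
      rw [← v2, ← v3, c, c'] at h2 <;> omega
  · apply dec_eq hM hf
    · simp only [List.length_append]
      omega
    · have g2 := join_arc (v := u2) k1 (by rw [l1]; exact k2)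
      have g3 := join_arc (v := u3) g2 (by
        rw [List.length_append, l1, l2, show p + (q - p) = q by omega]
        exact k3)
      have g4 := join_arc (v := u4) g3 (by
        rw [List.length_append, List.length_append, l1, l2, l3,
          show p + (q - p) + (r - q) = r by omega]
        exact k4)
      exact g4

end Pool.Agent.T6.H53.AL
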